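import Mathlib
import Pool.Agent.R338.LogN

/-!
# Vojta's conjecture for points of bounded degree: no logarithmic error term with an absolute constant

Let `R` be a polynomial of degree `2 g - 3` over `ℤ`, `g ≥ 2`, such that
`f = (x ^ 3 - 2) (x - 3) R (x)` has no multiple zeros. The smooth projective model `C` of
`y ^ 2 = f (x)` is a curve of genus `g` over `ℚ`. It has one point `∞` at infinity,
`K_C = (2 g - 2) ∞`, and `2 ∞` is the fibre of `x` over `∞`. The fibre of `x` over `3` is `2 W` with
the rational point `W = (3, 0)`.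

Let `X = C ^ n`, a smooth projective variety of dimension `n` with ample canonical class, and let `D`
be the normal crossings divisor `∑ pr_i ^* W`, the sum over `i ∈ I`, for a set `I` of indices, which
may be empty. Let `S` consist of the places `2` and `∞`. For the points `P = (x_i, y_i)` of `X` over
the points `x` of `ℚ ^ n`, which have degree at most `2 ^ n`, one has, up to bounded functions,
`h_K (P) = (g - 1) ∑ h (x_i)` and `∑_{v ∈ S} λ_{D,v} (P) ≥ λ_{D,2} (P) = ∑ λ (x_i)`, the sum over
`i ∈ I`, where `λ (x) = v_2 (N - 3 M) (log 2) / 2` for `x = N / M` in lowest terms (half of the local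
height of `x` at `2` with respect to the point `3` of `ℙ¹`). For every ample divisor `A`,
`log h_A (P) = log (∑ h (x_i)) + O(1)`.

Vojta's conjecture says that `∑_{v ∈ S} λ_{D,v} (P) + h_K (P) ≤ d (P) + ε h_A (P) + O(1)` for the
points of degree at most `2 ^ n` outside a proper closed subset `Z`. We show that, whatever `Z` is,
`ε h_A (P)` cannot be replaced by `c log h_A (P)` with `c < (n + #I) / 4`. So the constant in a
logarithmic error term would have to grow with the dimension and the degree of the points.

A proper closed subset `Z` of `X` has a proper closed image in `(ℙ¹) ^ n`, which (in the affine part)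
is in the zero set of a polynomial `G ≠ 0` in `n` variables.

The point `Q = (3, 5)` of the elliptic curve `E : w ^ 2 = x ^ 3 - 2` has infinite order. For the
abscissa `x` of `(2 ^ (j + 1) + 1) Q`, `x ^ 3 - 2` is a square, `x - 3` is divisible by `2 ^ (j + 2)`,
and `h (x)` has the order of `4 ^ j`. So a high power of `4` can be removed from `f (x)`, and `W` is
close to the points over `x` at the place `2`.
-/

set_option autoImplicit false

namespace Pool.Agent.Results.MP_651af7_nt.LogErrorPowers

open NumberField Module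

/-- The polynomial function `f = (x ^ 3 - 2) (x - 3) R (x)`. -/
noncomputable def f (R : Polynomial ℤ) (x : ℚ) : ℚ :=
  (x ^ 3 - 2) * (x - 3) * Polynomial.aeval x R

/-- The logarithmic height of a rational number. -/
noncomputable def height (x : ℚ) : ℝ := Real.log ((max x.num.natAbs x.den : ℕ) : ℝ)

/-- The local height at the place `2` of the points over `x = N / M` with respect to the point
`W = (3, 0)` of `y ^ 2 = f (x)`, namely `v_2 (N - 3 M) (log 2) / 2`. -/
noncomputable def proximity (x : ℚ) : ℝ :=
  (1 / 2) * (padicValInt 2 (x.num - 3 * (x.den : ℤ)) : ℝ) * Real.log 2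

/-- The logarithmic discriminant `log |disc L| / [L : ℚ]`. -/
noncomputable def logDisc (L : Type) [Field L] [NumberField L] : ℝ :=
  Real.log |(discr L : ℝ)| / finrank ℚ L

/-- `P = (x_i, y_i)` is a closed point of `C ^ n` with all `x_i` rational, the residue field is
`L = ℚ(y_1, …, y_n)`, of degree at most `2 ^ n`, and
`λ_{D,2} (P) + h_K (P) > d (P) + c log (∑ h (x_i)) + B`. -/
def Violates {n : ℕ} (g : ℕ) (R : Polynomial ℤ) (I : Finset (Fin n)) (c B : ℝ) (x : Fin n → ℚ)
    (L : Type) [Field L] [NumberField L] (y : Fin n → L) : Prop :=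
  (∀ i, y i ^ 2 = (f R (x i) : L)) ∧ IntermediateField.adjoin ℚ (Set.range y) = ⊤ ∧
    finrank ℚ L ≤ 2 ^ n ∧
    (∑ i ∈ I, proximity (x i)) + ((g : ℝ) - 1) * (∑ i, height (x i)) >
      logDisc L + c * Real.log (∑ i, height (x i)) + B

/-- **No logarithmic error term with an absolute constant.** Let `R` be an integral polynomial of
degree `2 g - 3` (so `g ≥ 2` and `f` has degree `2 g + 1`), `n ≥ 1`, `I` a set of indices,
`c < (n + #I) / 4` and `B` arbitrary, and let `G ≠ 0` be a polynomial in `n` variables. Then some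
point `P` of `C ^ n` of degree at most `2 ^ n` over a rational point `x` with `G (x) ≠ 0` violates the
inequality `∑_{i ∈ I} λ_{W,2} (P_i) + h_K (P) ≤ d (P) + c log (∑ h (x_i)) + B`. -/
theorem result (g n : ℕ) (R : Polynomial ℤ) (hR : R.natDegree + 3 = 2 * g) (hn : 1 ≤ n)
    (I : Finset (Fin n)) (c B : ℝ) (hc : c < ((n : ℝ) + I.card) / 4)
    (G : MvPolynomial (Fin n) ℚ) (hG : G ≠ 0) :
    ∃ x : Fin n → ℚ, MvPolynomial.eval x G ≠ 0 ∧
      ∃ (L : Type) (_ : Field L) (_ : NumberField L) (y : Fin n → L), Violates g R I c B x L y := by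
  obtain ⟨m, rfl⟩ : ∃ m, g = m + 2 := ⟨g - 2, by omega⟩
  obtain ⟨J, hne, hJ⟩ := R338.Dbl.powmain m n hn R (by omega) I c B hc G hG
  refine ⟨fun i => R338.Dbl.T (J i), hne, ?_⟩
  have hroot : ∀ i, ∃ y : ℂ, y ^ 2 = ((f R (R338.Dbl.T (J i)) : ℚ) : ℂ) := fun i =>
    IsAlgClosed.exists_pow_nat_eq _ (by norm_num)
  choose y hy using hroot
  set K : IntermediateField ℚ ℂ := IntermediateField.adjoin ℚ (Set.range y) with hK
  have hint : ∀ i, IsIntegral ℚ (y i) := by
    intro i
    refine ⟨Polynomial.X ^ 2 - Polynomial.C (f R (R338.Dbl.T (J i))),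
      Polynomial.monic_X_pow_sub_C _ (by norm_num), ?_⟩
    rw [Polynomial.eval₂_sub, Polynomial.eval₂_pow, Polynomial.eval₂_X, Polynomial.eval₂_C, hy i]
    simp
  have hfd : FiniteDimensional ℚ K := by
    rw [hK]
    exact IntermediateField.finiteDimensional_adjoin (by rintro _ ⟨i, rfl⟩; exact hint i)
  have hNF : NumberField K := { to_charZero := inferInstance, to_finiteDimensional := hfd }
  have hmem : ∀ i, y i ∈ K := fun i => IntermediateField.subset_adjoin ℚ _ ⟨i, rfl⟩
  have hy' : ∀ i, (⟨y i, hmem i⟩ : K) ^ 2 = ((f R (R338.Dbl.T (J i)) : ℚ) : K) := by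
    intro i
    apply Subtype.ext
    have := hy i
    simpa using this
  have htop : IntermediateField.adjoin ℚ (Set.range fun i => (⟨y i, hmem i⟩ : K)) = ⊤ := by
    apply R338.adjoin_self_top
    rw [← Set.range_comp]
    rfl
  obtain ⟨h1, h2⟩ := hJ K (fun i => ⟨y i, hmem i⟩) hy' htop
  refine ⟨K, inferInstance, hNF, fun i => ⟨y i, hmem i⟩, hy', htop, h1, ?_⟩
  have e : ((((m + 2 : ℕ) : ℝ)) - 1) = (m : ℝ) + 1 := by push_cast; ring
  rw [e]
  exact h2

end Pool.Agent.Results.MP_651af7_nt.LogErrorPowers
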