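import Mathlib
import Pool.Agent.R337.VG.Main

/-!
# Vojta's inequality for points of any degree on the projective line, with a power saving

Let `D` be an arbitrary reduced divisor of degree `q` on the projective line over `ℚ` (its points
need not be rational), `S` a finite set of primes, `r ≥ 2` and `ε > 0`. Vojta's inequality for
algebraic points of degree `r`, with respect to `D` and the places of `S` and infinity, with the
discriminant term and with error term `ε h(x) + c`, holds for all points of degree `r` and height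
at most `log B` with at most `C B ^ (r² (2 r - 2 - min ε 2) / (2 (r + 1)) + δ)` exceptions. There
are about `B ^ (r² + r)` points of degree `r` and height at most `log B`. For `r = 2` and `ε ≤ 2`
the exponent is `(4 - 2 ε) / 3 + δ`, as in the file on quadratic points.

Proof. Let `f` be the minimal polynomial of an exceptional point, `R = Res(f, G)`.
1. Fields. A number field of degree `r` and discriminant at most `Y` is generated by an algebraic
integer (Minkowski) whose minimal polynomial is one of `C Y ^ (r / 2)` polynomials; for totally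
complex fields stable under complex conjugation one takes a purely imaginary generator.
2. Points in one field. For two exceptional points `x`, `y` of one field `K` of degree `r` the
number `f₀ g₀ Norm (x - y)` is a nonzero integer; at each place of `S` and infinity it is small if
`x` and `y` have the same conjugates near the same points of `D`. So there are only `C (1 + log B)`
exceptional points in one field.
3. Large discriminants. If the discriminant of the field is large, `R` is smaller by this factor.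
The polynomials `f` of one class of approximation are small at some points of `D`; if they span a
space of dimension `r + 1 - c`, the products `X ^ j f`, `j ≤ c`, span the polynomials of degree at
most `r + c`, and a determinant of such products is a nonzero integer, small at all places. This
bounds the covolume of the lattice generated by the class and so the number of the `f`.
-/

set_option autoImplicit false

namespace Pool.Agent.Results.MP_651af7_nt.PointsOfAnyDegree

open Polynomial IntermediateField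

/-- The absolute logarithmic height `(log M(f)) / deg f` of the roots of an irreducible primitive
`f` (`M` is the Mahler measure). -/
noncomputable def height (f : ℤ[X]) : ℝ :=
  Real.log (f.map (Int.castRingHom ℂ)).mahlerMeasure / f.natDegree

/-- `λ_{D,∞}(x)` for the divisor `D` of degree `q` given by `G`: the average over the conjugates
`z` of `x`, i.e. the roots of `f`, of `log (max(1,|z|)^q / |G(z)|)`. -/
noncomputable def lambdaInf (G : ℤ[X]) (q : ℕ) (f : ℤ[X]) : ℝ :=
  ((f.map (Int.castRingHom ℂ)).roots.map fun z =>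
    Real.log (max 1 ‖z‖ ^ q / ‖(G.map (Int.castRingHom ℂ)).eval z‖)).sum / f.natDegree

/-- `λ_{D,p}(x)`, the average over the conjugates `z` of `x` over `ℚ_p` of
`log (max(1,|z|_p)^q / |G(z)|_p)`; for primitive `f` the sum over the conjugates is
`-log |Res(f,G)|_p`, with `Res` the resultant for the degrees `deg f` and `q`. -/
noncomputable def lambdaP (p : ℕ) (G : ℤ[X]) (q : ℕ) (f : ℤ[X]) : ℝ :=
  (padicValInt p (resultant f G f.natDegree q) : ℝ) * Real.log p / f.natDegree

open Classical in
/-- The logarithmic discriminant `d(x)` of the field `ℚ(x)`. -/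
noncomputable def logDisc (x : ℂ) : ℝ :=
  if _ : NumberField ℚ⟮x⟯ then
    Real.log |(NumberField.discr ℚ⟮x⟯ : ℝ)| / Module.finrank ℚ ℚ⟮x⟯ else 0

/-- `x` is an algebraic number of degree `r` with minimal polynomial `f` over `ℤ`, of height at
most `log B`, and not in the support of `D`. -/
def Pt (G : ℤ[X]) (r : ℕ) (B : ℝ) (x : ℂ) (f : ℤ[X]) : Prop :=
  Irreducible f ∧ f.natDegree = r ∧ aeval x f = 0 ∧ height f ≤ Real.log B ∧ aeval x G ≠ 0

lemma logDisc_nonneg (x : ℂ) : 0 ≤ logDisc x := by
  unfold logDisc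
  split_ifs with h
  · refine div_nonneg (Real.log_nonneg ?_) (Nat.cast_nonneg _)
    have h1 : NumberField.discr ℚ⟮x⟯ ≠ 0 := NumberField.discr_ne_zero _
    have h2 : 1 ≤ |NumberField.discr ℚ⟮x⟯| := Int.one_le_abs h1
    exact_mod_cast h2
  · exact le_rfl

/-- a root of `f` outside the support of `D` has nonzero resultant -/
lemma resultant_ne (f G : ℤ[X]) (q : ℕ) (hGq : G.natDegree ≤ q) (hf : Irreducible f)
    (hd : 1 ≤ f.natDegree) (x : ℂ) (hx : aeval x f = 0) (hG : aeval x G ≠ 0) :
    resultant f G f.natDegree q ≠ 0 := by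
  intro h0
  have h1 := Pool.Agent.H990R4.VJ.res_eq f G q hGq
  rw [h0, Int.cast_zero, eq_comm, mul_eq_zero] at h1
  rcases h1 with h1 | h1
  · have h2 : (f.leadingCoeff : ℂ) = 0 := by
      by_contra hne
      exact (pow_ne_zero q hne) h1
    exact hf.ne_zero (leadingCoeff_eq_zero.1 (by exact_mod_cast h2))
  · obtain ⟨z, hz, hz0⟩ := Multiset.mem_map.1 (Multiset.prod_eq_zero_iff.1 h1)
    rw [mem_roots'] at hz
    have hzf : aeval z f = 0 := by
      have := hz.2
      rw [IsRoot.def, eval_map] at this
      rw [aeval_def]; exact this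
    have hzG : aeval z G = 0 := by
      rw [eval_map] at hz0
      rw [aeval_def]; exact hz0
    have hprim : f.IsPrimitive := hf.isPrimitive (by omega)
    have hirr : Irreducible (f.map (algebraMap ℤ ℚ)) :=
      (hprim.irreducible_iff_irreducible_map_fraction_map).1 hf
    have hzf' : aeval z (f.map (algebraMap ℤ ℚ)) = 0 := by rw [aeval_map_algebraMap]; exact hzf
    have hzG' : aeval z (G.map (algebraMap ℤ ℚ)) = 0 := by rw [aeval_map_algebraMap]; exact hzG
    have hm1 : minpoly ℚ z ∣ f.map (algebraMap ℤ ℚ) := minpoly.dvd ℚ z hzf'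
    have hm2 : minpoly ℚ z ∣ G.map (algebraMap ℤ ℚ) := minpoly.dvd ℚ z hzG'
    have hint : IsIntegral ℚ z := by
      rw [← isAlgebraic_iff_isIntegral]
      exact ⟨f.map (algebraMap ℤ ℚ), hirr.ne_zero, hzf'⟩
    have hass : Associated (minpoly ℚ z) (f.map (algebraMap ℤ ℚ)) :=
      (minpoly.irreducible hint).associated_of_dvd hirr hm1
    have hdvd : f.map (algebraMap ℤ ℚ) ∣ G.map (algebraMap ℤ ℚ) := hass.symm.dvd.trans hm2
    obtain ⟨k, hk⟩ := hdvd
    apply hG
    have h5 : aeval x (G.map (algebraMap ℤ ℚ)) = 0 := by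
      rw [hk, map_mul, aeval_map_algebraMap, hx, zero_mul]
    rwa [aeval_map_algebraMap] at h5

/-- **Vojta's inequality for points of degree `r` on the line, with a power saving.** Let `D` be
the reduced effective divisor of degree `q ≥ 1` on the projective line over `ℚ` given by `G`, `S` a
finite set of primes, `r ≥ 2`, `ε > 0`, `c` real and `δ > 0`. Then for all `B ≥ 1`, with at most
`C * B ^ (r ^ 2 * (2 * r - 2 - min ε 2) / (2 * (r + 1)) + δ)` exceptions, all algebraic numbers `x`
of degree `r` and height at most `log B` outside the support of `D` satisfy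
`∑_{v ∈ S ∪ {∞}} λ_{D,v}(x) + h_K(x) - d(x) ≤ ε h(x) + c`, with `h_K = -2 h`. -/
theorem result (r q : ℕ) (hr : 2 ≤ r) (hq : 1 ≤ q) (G : ℤ[X])
    (hG : Squarefree (G.map (Int.castRingHom ℚ))) (hGq : G.natDegree ≤ q)
    (hqG : q ≤ G.natDegree + 1) (S : Finset ℕ) (hS : ∀ p ∈ S, p.Prime) (ε c δ : ℝ)
    (hε : 0 < ε) (hδ : 0 < δ) :
    ∃ C : ℝ, ∀ B : ℝ, 1 ≤ B → ∃ T : Finset ℂ,
      (T.card : ℝ) ≤ C * B ^ ((r : ℝ) ^ 2 * (2 * r - 2 - min ε 2) / (2 * (r + 1)) + δ) ∧
      ∀ (x : ℂ) (f : ℤ[X]), Pt G r B x f → x ∉ T →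
        lambdaInf G q f + ∑ p ∈ S, lambdaP p G q f + (-2) * height f - logDisc x ≤
          ε * height f + c := by
  have hr0 : (0 : ℝ) < r := by exact_mod_cast (by omega : 0 < r)
  have hG0 : G ≠ 0 := by
    rintro rfl
    rw [Polynomial.map_zero] at hG
    exact hG.ne_zero rfl
  have hsep : (G.map (Int.castRingHom ℚ)).Separable := PerfectField.separable_iff_squarefree.2 hG
  obtain ⟨ε', hε'⟩ : ∃ ε' : ℝ, ε' = min ε 2 := ⟨_, rfl⟩
  have hε1 : 0 < ε' := by rw [hε']; exact lt_min hε (by norm_num)
  have hε2 : ε' ≤ 2 := by rw [hε']; exact min_le_right _ _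
  have hε3 : ε' ≤ ε := by rw [hε']; exact min_le_left _ _
  rw [← hε']
  obtain ⟨C, hC0, hC⟩ := Pool.Agent.R337.VG.main' r q hr hq G hG0 hsep hGq hqG S hS ε'
    (Real.exp (-(r * c))) (δ / r) hε1 hε2 (Real.exp_pos _) (by positivity)
  refine ⟨C, fun B hB => ?_⟩
  have hB0 : 0 < B := by linarith
  have hlB : 0 ≤ Real.log B := Real.log_nonneg hB
  set V : Set ℂ := {x | ∃ f : ℤ[X], Pt G r B x f ∧ ¬ (lambdaInf G q f + ∑ p ∈ S, lambdaP p G q f +
    (-2) * height f - logDisc x ≤ ε * height f + c)} with hV
  have hBe : Real.exp ((r * (2 * r - 2 - ε') / (2 * (r + 1)) + δ / r) * (r * Real.log B)) =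
      B ^ ((r : ℝ) ^ 2 * (2 * r - 2 - ε') / (2 * (r + 1)) + δ) := by
    rw [Real.rpow_def_of_pos hB0]
    congr 1
    field_simp
  have hcount : ∀ E : Finset ℂ, (E : Set ℂ) ⊆ V → (E.card : ℝ) ≤
      C * B ^ ((r : ℝ) ^ 2 * (2 * r - 2 - ε') / (2 * (r + 1)) + δ) := by
    intro E hE
    rw [← hBe]
    refine hC (r * Real.log B) (mul_nonneg hr0.le hlB) E (fun x => r * logDisc x) fun x hx => ?_
    obtain ⟨f, ⟨hirr, hdeg, hx0, hh, hxG⟩, hn⟩ := hE hx
    obtain ⟨hfd, hfr⟩ := Pool.Agent.R337.VG.finrank_adjoin_root r (by omega) x f hirr hdeg hx0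
    have hnf : NumberField ℚ⟮x⟯ := { to_charZero := inferInstance, to_finiteDimensional := hfd }
    have hdisc : |(NumberField.discr ℚ⟮x⟯ : ℝ)| = Real.exp (r * logDisc x) := by
      have h1 : logDisc x = Real.log |(NumberField.discr ℚ⟮x⟯ : ℝ)| / r := by
        unfold logDisc
        rw [dif_pos hnf, hfr]
      rw [h1, mul_div_cancel₀ _ hr0.ne', Real.exp_log]
      exact abs_pos.2 (by exact_mod_cast NumberField.discr_ne_zero ℚ⟮x⟯)
    refine ⟨mul_nonneg hr0.le (logDisc_nonneg x), ⟨hnf, hdisc⟩, f, hirr, hdeg, hx0, ?_⟩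
    have hf0 : f ≠ 0 := hirr.ne_zero
    have hM1 : 1 ≤ Pool.Agent.H990R4.VJ.mm f := Pool.Agent.H990R4.VJ.one_le_mm hf0
    have hM : 0 < Pool.Agent.H990R4.VJ.mm f := lt_of_lt_of_le one_pos hM1
    have hhe : height f = Real.log (Pool.Agent.H990R4.VJ.mm f) / r := by
      unfold height; rw [hdeg]; rfl
    have hMle : Real.log (Pool.Agent.H990R4.VJ.mm f) ≤ r * Real.log B := by
      rw [hhe, div_le_iff₀ hr0, mul_comm] at hh
      exact hh
    have hR := resultant_ne f G q hGq hirr (by omega) x hx0 hxG
    have hsum := Pool.Agent.H990R4.VJ.sum_log_eq f G q hGq hf0 hR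
    rw [hdeg] at hR hsum
    refine ⟨hMle, hR, ?_⟩
    have hh0 : 0 ≤ height f := by
      rw [hhe]; exact div_nonneg (Real.log_nonneg hM1) hr0.le
    rw [not_le] at hn
    have hn1 : ε' * height f + c < lambdaInf G q f + ∑ p ∈ S, lambdaP p G q f +
        (-2) * height f - logDisc x :=
      lt_of_le_of_lt (by nlinarith) hn
    rw [hhe] at hn1
    have hlI : lambdaInf G q f = (q * Real.log (Pool.Agent.H990R4.VJ.mm f) -
        Real.log |((resultant f G r q : ℤ) : ℝ)|) / r := by
      unfold lambdaInf; rw [hdeg, hsum]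
    have hlP : ∑ p ∈ S, lambdaP p G q f =
        (∑ p ∈ S, (padicValInt p (resultant f G r q) : ℝ) * Real.log p) / r := by
      unfold lambdaP; rw [hdeg, ← Finset.sum_div]
    rw [hlI, hlP] at hn1
    have hRpos : (0 : ℝ) < |((resultant f G r q : ℤ) : ℝ)| := abs_pos.2 (by exact_mod_cast hR)
    have havp : ∀ p ∈ S, 0 < Pool.Agent.W226.VQ.av p (resultant f G r q) :=
      fun p hp => Pool.Agent.W226.VQ.av_pos p (hS p hp) hR
    have hprod : 0 < ∏ p ∈ S, Pool.Agent.W226.VQ.av p (resultant f G r q) :=
      Finset.prod_pos havp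
    rw [← Real.log_le_log_iff (mul_pos (mul_pos hRpos hprod) (Real.exp_pos _))
      (mul_pos (Real.exp_pos _) (Real.rpow_pos_of_pos hM _)),
      Real.log_mul (mul_pos hRpos hprod).ne' (Real.exp_pos _).ne', Real.log_mul hRpos.ne' hprod.ne',
      Real.log_prod fun p hp => (havp p hp).ne', Real.log_exp,
      Real.log_mul (Real.exp_pos _).ne' (Real.rpow_pos_of_pos hM _).ne',
      Real.log_exp, Real.log_rpow hM]
    have hlp : ∑ p ∈ S, Real.log (Pool.Agent.W226.VQ.av p (resultant f G r q)) =
        -∑ p ∈ S, (padicValInt p (resultant f G r q) : ℝ) * Real.log p := by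
      rw [← Finset.sum_neg_distrib]
      refine Finset.sum_congr rfl fun p hp => ?_
      rw [Pool.Agent.W226.VQ.av_eq p (hS p hp) hR, Real.log_inv, Real.log_pow]
    rw [hlp]
    have hn2 := mul_lt_mul_of_pos_right hn1 hr0
    have e1 : (ε' * (Real.log (Pool.Agent.H990R4.VJ.mm f) / r) + c) * r =
        ε' * Real.log (Pool.Agent.H990R4.VJ.mm f) + r * c := by field_simp
    have e2 : ((q * Real.log (Pool.Agent.H990R4.VJ.mm f) -
        Real.log |((resultant f G r q : ℤ) : ℝ)|) / r +
        (∑ p ∈ S, (padicValInt p (resultant f G r q) : ℝ) * Real.log p) / r +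
        (-2) * (Real.log (Pool.Agent.H990R4.VJ.mm f) / r) - logDisc x) * r =
        q * Real.log (Pool.Agent.H990R4.VJ.mm f) -
        Real.log |((resultant f G r q : ℤ) : ℝ)| +
        (∑ p ∈ S, (padicValInt p (resultant f G r q) : ℝ) * Real.log p) -
        2 * Real.log (Pool.Agent.H990R4.VJ.mm f) - r * logDisc x := by field_simp; ring
    rw [e1, e2] at hn2
    linarith
  have hfin : V.Finite := by
    by_contra hinf
    obtain ⟨E, hEV, hEc⟩ := Set.Infinite.exists_subset_card_eq hinf
      (⌊C * B ^ ((r : ℝ) ^ 2 * (2 * r - 2 - ε') / (2 * (r + 1)) + δ)⌋₊ + 1)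
    have h1 := hcount E hEV
    have h2 := Nat.lt_floor_add_one (C * B ^ ((r : ℝ) ^ 2 * (2 * r - 2 - ε') / (2 * (r + 1)) + δ))
    rw [hEc] at h1
    push_cast at h1
    linarith
  refine ⟨hfin.toFinset, hcount _ (by rw [Set.Finite.coe_toFinset]), fun x f hpt hxT => ?_⟩
  by_contra hcon
  exact hxT (hfin.mem_toFinset.mpr ⟨f, hpt, hcon⟩)

end Pool.Agent.Results.MP_651af7_nt.PointsOfAnyDegree
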