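import Mathlib
import Pool.Agent.R870.RQ.Main

set_option autoImplicit false

/-!
# Vojta's inequality for almost all divisors and all points of bounded degree

Let `r ≥ 1`, `d_1, …, d_s ≥ 0`, `D = ∑ d_i ≥ 1`, `S` a finite set of primes, `ε > 0` and `κ < s` a
real number. For all but a proportion `O(H ^ (-δ))` of the systems `(G_1, …, G_s)` of binary forms of
degrees `d_i` with integer coefficients of absolute value at most `H`, ALL the algebraic numbers `x` of
degree `q ≤ r` with `G_i(x) ≠ 0` and height `H(x) ≤ H ^ ((s - κ) / (q D))` satisfy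

  `(D - (q + 1) - ε) h(x) + (κ / q) log H ≤ ∑ N^(1) (D_i, x)`,   `D_i : G_i = 0`,

and for `q = 2` also the inequality of the conjecture with truncated counting functions

  `(D - 2 - ε) h(x) - d(x) + (κ / 2) log H ≤ ∑ N^(1) (D_i, x)`.

In Lean `x` is given by its irreducible polynomial `f ∈ ℤ[T]`, `q h(x)` is the logarithm of the Mahler
measure of `f`, `q N^(1) (D_i, x)` is replaced by the (smaller) sum of `log p` over the primes `p ∉ S`
that divide the resultant of `f` and `G_i`, and `2 d(x)` by the (smaller) logarithm of the squarefree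
part of the discriminant of `f`.
-/

namespace Pool.Agent.Results.MP_651af7_nt.RandomDivisors

open Pool.Agent.R870.RQ

theorem result {s : ℕ} (r : ℕ) (d : Fin s → ℕ) (hD : 1 ≤ ∑ i, d i) (S : Finset ℕ)
    (ε κ : ℝ) (hε : 0 < ε) (hκ : κ < s) : ∃ δ C : ℝ, 0 < δ ∧ ∀ H : ℕ, 1 ≤ H →
      ((Bad r d S ε κ H).ncard : ℝ) ≤
        C * (H : ℝ) ^ (-δ) * (2 * (H : ℝ) + 1) ^ (∑ i, (d i + 1)) :=
  random_divisors r d hD S ε κ hε hκ

end Pool.Agent.Results.MP_651af7_nt.RandomDivisors
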