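import Mathlib
import Pool.Agent.R337.UE.Prox

/-!
# Vojta's inequality on all curves over all number fields, points of all degrees: one thin
exceptional set

Let `a_1, …, a_q` be `q ≥ 3` distinct rational numbers, for example `q = 3`. We consider ALL smooth
projective curves `C` over ALL number fields and all finite maps `t : C → ℙ¹` which are unramified
outside the fibres over the `a_j`. By Belyi's theorem every curve over every number field has such
maps, and every reduced divisor `D` on `C` is contained in the fibres over the `a_j` for some such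
map. Let `A` be the ring of the functions on `C` with poles only over `∞`: a Dedekind domain, finite
over `ℚ[t]`, whose field of constants can be any number field `k`. Let `N` be the rank of `A` over
`ℚ[t]` (this is `[k : ℚ]` times the degree of `t`) and let `y_{j 0} = t - a_j, y_{j 1}, …` be
generators of the radical of the ideal `(t - a_j)` of `A`, the ideal of the reduced fibre `F_j` over
`a_j`. Then `F = ∑ F_j ≥ D`, and `q - (∑_j dim (A / (y_{j 0}, y_{j 1}, …))) / N - 2` is the degree
of `K_C` divided by the degree of `t`.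

The points `P` of `C` (not over `∞`) over a number field `L` are the homomorphisms `φ : A → L`, and
`λ_v(P) = ∑_j max(0, - log max_i |y_{j i}(P)|_v)` is a Weil function of `F` at `v`.

We prove that for every `κ ≤ q`, for example `κ = 2`, there is ONE set `E` of algebraic numbers,
which contains for every `r ≥ 2` only `O(B ^ (r e + δ))` of the about `B ^ (r (r + 1))` numbers of
degree `r` and height at most `log B`, such that for all curves `C`, all maps `t` and all `ε > 0`
there is a constant `C₀` with
`m_S(F, P) + (2 + deg K_C / deg t - κ - ε) h(x) ≤ d(L) + ∑_{p ∈ S} log p + C₀`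
for all points `P` of `C` over the numbers `x = t(P)` of degree at least two which are not in `E`,
all number fields `L` over which `P` is defined and all finite sets `S` of primes: `C₀` does not
depend on the degree of `P`. For `κ = 2` this is the inequality of the conjecture, with the whole
fibres `F` instead of `D` and with the set of primes variable.
-/

set_option autoImplicit false

namespace Pool.Agent.Results.MP_651af7_nt.UniformCurves

open Polynomial IsDedekindDomain NumberField

/-- The absolute logarithmic height `(log M(f)) / deg f` of the roots of an irreducible integral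
polynomial `f` (`M` is the Mahler measure). -/
noncomputable def height (f : ℤ[X]) : ℝ :=
  Real.log (f.map (Int.castRingHom ℂ)).mahlerMeasure / f.natDegree

/-- The algebraic numbers of degree `r` and height at most `log B`. -/
def Numbers (r : ℕ) (B : ℝ) : Set ℂ :=
  {x | ∃ f : ℤ[X], Irreducible f ∧ f.natDegree = r ∧ aeval x f = 0 ∧ height f ≤ Real.log B}

/-- the function `t` -/
noncomputable def coord (A : Type) [CommRing A] [Algebra ℚ[X] A] : A := algebraMap ℚ[X] A X

/-- `max (0, - log max_i c_i)` -/
noncomputable def minusLog {s : ℕ} (c : Fin (s + 1) → ℝ) : ℝ := max 0 (-Real.log (⨆ i, c i))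

open Classical in
/-- The proximity function `m_S(F, P)`: the sum over the infinite places `w` (with
`mult w = [L_w : ℝ]`) and the primes `v` above the primes of `S` of the local heights
`∑_j max (0, - log max_i |y_{j i}(P)|)`, divided by `[L : ℚ]`. The absolute values are normalised
so that the product formula holds: `|b|_v = N(v) ^ (- v(b))`. -/
noncomputable def proximity {A : Type} [CommRing A] {q : ℕ} (S : Finset ℕ)
    (u : Fin q → ℕ) (y : ∀ j, Fin (u j + 1) → A)
    (L : IntermediateField ℚ ℂ) [NumberField L] (φ : A →+* L) : ℝ :=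
  ((∑ w : InfinitePlace L, (w.mult : ℝ) * ∑ j, minusLog (fun i => w (φ (y j i)))) +
    ∑ᶠ v : HeightOneSpectrum (𝓞 L), if ∃ p ∈ S, (p : 𝓞 L) ∈ v.asIdeal then
      ∑ j, minusLog (fun i => FinitePlace.mk v (φ (y j i))) else 0) / Module.finrank ℚ L

/-- The logarithmic discriminant `log |disc L| / [L : ℚ]`. -/
noncomputable def logDisc (L : IntermediateField ℚ ℂ) [NumberField L] : ℝ :=
  Real.log |(NumberField.discr L : ℝ)| / Module.finrank ℚ L

/-- `q - (∑_j dim (A / (y_{j 0}, y_{j 1}, …))) / N`, where `N` is the rank of `A` over `ℚ[t]`. -/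
noncomputable def degree {A : Type} [CommRing A] [Algebra ℚ A] [Algebra ℚ[X] A] {q : ℕ}
    (u : Fin q → ℕ) (y : ∀ j, Fin (u j + 1) → A) : ℝ :=
  q - (∑ j, (Module.finrank ℚ (A ⧸ Ideal.span (Set.range (y j))) : ℝ)) / Module.finrank ℚ[X] A

/-- The number of number fields of degree `r` and discriminant at most `Δ` is
`O(Δ ^ (alpha r c η))`: here `alpha r c η` is the smaller of
`(r - 1) (r + 2) / (4 ⌈r / 2⌉)` and `c r ^ η`. -/
noncomputable def alpha (r : ℕ) (c η : ℝ) : ℝ :=
  min (((r : ℝ) - 1) * (r + 2) / (4 * ((r + 1) / 2 : ℕ))) (c * (r : ℝ) ^ η)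

/-- The exponent of the theorem: with `m = min q (r + 1)`, the smaller of `α (q - κ)` and
`((q α - 2) (r + 1 - m) + m α (q - κ)) / (q α + m - 2)`. It is smaller than `r + 1` if `κ ≥ 0`. -/
noncomputable def exponent (α : ℝ) (r q : ℕ) (κ : ℝ) : ℝ :=
  min (α * (q - κ)) (((q * α - 2) * (r + 1 - (min q (r + 1) : ℕ)) +
    (min q (r + 1) : ℕ) * α * (q - κ)) / (q * α + (min q (r + 1) : ℕ) - 2))

open Classical in
lemma proximity_eq {A : Type} [CommRing A] {q : ℕ} (S : Finset ℕ)
    (u : Fin q → ℕ) (y : ∀ j, Fin (u j + 1) → A)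
    (L : IntermediateField ℚ ℂ) [NumberField L] (φ : A →+* L)
    (hf : ∀ j, {v : HeightOneSpectrum (𝓞 L) | Pool.Agent.W223.AC.lamF (y j) φ v ≠ 0}.Finite) :
    proximity S u y L φ = (∑ j, (∑ w : InfinitePlace L, (w.mult : ℝ) *
      Pool.Agent.W223.AC.lamI (y j) φ w + Pool.Agent.W223.AC.mS S (y j) φ)) /
        Module.finrank ℚ L := by
  unfold proximity
  refine congrArg (fun t : ℝ => t / Module.finrank ℚ L) ?_
  rw [Finset.sum_add_distrib]
  congr 1
  · rw [Finset.sum_comm]
    refine Finset.sum_congr rfl fun w _ => ?_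
    rw [Finset.mul_sum]
    rfl
  · unfold Pool.Agent.W223.AC.mS
    rw [← finsum_sum_comm]
    · refine finsum_congr fun v => ?_
      split_ifs
      · rfl
      · rw [Finset.sum_const_zero]
    · intro j _
      refine (hf j).subset fun v hv => ?_
      rw [Function.mem_support] at hv
      intro h
      apply hv
      rw [h, ite_self]

/-- **Vojta's inequality on all curves over all number fields, one exceptional set.** Let `η > 0`.
There is `c ≥ 1` such that for all distinct rational numbers `a_1, …, a_q`, `q ≥ 3`, and all real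
`κ ≤ q` there is a set `E` of complex numbers with the following two properties.

(1) For all `r ≥ 2` and `δ > 0` there is `C` such that `E` contains at most
`C * B ^ (r * exponent (alpha r c η) r q κ + δ)` algebraic numbers of degree `r` and height at most
`log B`, for all `B ≥ 1`. For `κ ≥ 0` the exponent is smaller than `r (r + 1) + δ`.

(2) Let `A` be a Dedekind domain, finite over `ℚ[t]` and containing it (the ring of functions of a
smooth affine curve over a number field which is finite over the `t`-line), of rank `N`, let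
`y_{j 0} = t - a_j, y_{j 1}, …, y_{j u_j}` be elements of the radical of the ideal `(t - a_j)`, for
example generators, and let `ε > 0`. Then there is a constant `C₀` such that for all algebraic
numbers `x` of degree at least two which are not in `E`, all points `P` of the curve with
`t(P) = x`, all number fields `L` over which `P` is defined and all finite sets `S` of primes
`m_S(F, P) + (q - (∑_j dim (A / (y_{j 0}, y_{j 1}, …))) / N - κ - ε) h(x)`
`≤ d(L) + ∑_{p ∈ S} log p + C₀`. -/
theorem result : ∀ η : ℝ, 0 < η → ∃ c : ℝ, 1 ≤ c ∧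
    ∀ q : ℕ, 3 ≤ q → ∀ a : Fin q → ℚ, Function.Injective a → ∀ κ : ℝ, κ ≤ q →
    ∃ E : Set ℂ,
      (∀ r : ℕ, 2 ≤ r → (0 ≤ κ → exponent (alpha r c η) r q κ < r + 1) ∧
        ∀ δ : ℝ, 0 < δ → ∃ C : ℝ, ∀ B : ℝ, 1 ≤ B → (E ∩ Numbers r B).Finite ∧
          ((E ∩ Numbers r B).ncard : ℝ) ≤
            C * B ^ ((r : ℝ) * exponent (alpha r c η) r q κ + δ)) ∧
      ∀ (A : Type) [CommRing A] [IsDedekindDomain A] [Algebra ℚ A] [Algebra ℚ[X] A]
        [IsScalarTower ℚ ℚ[X] A] [Module.Finite ℚ[X] A] [FaithfulSMul ℚ[X] A]
        (u : Fin q → ℕ) (y : ∀ j, Fin (u j + 1) → A),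
        (∀ j, y j 0 = coord A - algebraMap ℚ[X] A (C (a j))) →
        (∀ j i, y j i ∈ (Ideal.span {coord A - algebraMap ℚ[X] A (C (a j))}).radical) →
        ∀ ε : ℝ, 0 < ε → ∃ C₀ : ℝ,
          ∀ x : ℂ, x ∉ E → ∀ f : ℤ[X], Irreducible f → 2 ≤ f.natDegree → aeval x f = 0 →
          ∀ (L : IntermediateField ℚ ℂ) [NumberField L] (φ : A →+* L), (φ (coord A) : ℂ) = x →
          ∀ S : Finset ℕ, (∀ p ∈ S, p.Prime) →
            proximity S u y L φ + (degree u y - κ - ε) * height f ≤
              logDisc L + ∑ p ∈ S, Real.log p + C₀ := by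
  intro η hη
  obtain ⟨c, hc, hcount⟩ := Pool.Agent.R337.UE.exc_count η hη
  refine ⟨c, hc, ?_⟩
  intro q hq a ha κ hκ
  refine ⟨Pool.Agent.R337.UE.exc a κ, ?_, ?_⟩
  · intro r hr
    exact ⟨fun h => Pool.Agent.R337.UE.exponent_lt hr hq hc hη h,
      fun δ hδ => hcount r q hr hq a ha κ δ hκ hδ⟩
  · intro A _ _ _ _ _ _ _ u y hy0 hyr ε hε
    obtain ⟨C₀, hC₀⟩ := Pool.Agent.R337.UE.prox A q hq a κ u y hy0 hyr ε hε
    refine ⟨C₀, ?_⟩
    intro x hxE f hf hd hx L _ φ hφ S hS
    obtain ⟨h1, h2⟩ := hC₀ x hxE f hf hd hx L φ hφ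
    rw [proximity_eq S u y L φ h1]
    exact h2 S hS

end Pool.Agent.Results.MP_651af7_nt.UniformCurves
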